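import Pool.Agent.Helper81.AD2.Goals

/-!
PROJECT AD2, packet STR: the linear algebra of the filtration.
-/

set_option autoImplicit false

namespace Pool.Agent.Helper66.AD2.STR

open Module Pool.Agent.Helper81.AD2

theorem step {M : Type} [AddCommGroup M] [Module ℚ M] [FiniteDimensional ℚ M]
    (F0 F1 N : Submodule ℚ M) (h : F0 ≤ F1) :
    finrank ℚ (F1 ⊔ N : Submodule ℚ M) + finrank ℚ (F0 ⊔ (N ⊓ F1) : Submodule ℚ M) =
      finrank ℚ (F0 ⊔ N : Submodule ℚ M) + finrank ℚ F1 := by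
  have h1 := Submodule.finrank_sup_add_finrank_inf_eq F1 N
  have h2 := Submodule.finrank_sup_add_finrank_inf_eq F0 N
  have h3 := Submodule.finrank_sup_add_finrank_inf_eq F0 (N ⊓ F1)
  have h4 : F0 ⊓ (N ⊓ F1) = F0 ⊓ N := by
    apply le_antisymm
    · exact le_inf inf_le_left (inf_le_right.trans inf_le_left)
    · exact le_inf inf_le_left (le_inf inf_le_right (inf_le_left.trans h))
  have h5 : F1 ⊓ N = N ⊓ F1 := inf_comm _ _
  rw [h4] at h3
  rw [h5] at h1
  omega

theorem t : S_STR := by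
  intro M _ _ _ m F D N b hF h0 hm hD hb hsum
  have hA : ∀ n < m, F n ⊔ D (n + 1) ≤ F n ⊔ (N ⊓ F (n + 1)) := fun n hn =>
    sup_le_sup_left (hD n hn) _
  have hle : ∀ n < m, finrank ℚ (F n ⊔ D (n + 1) : Submodule ℚ M) ≤
      finrank ℚ (F n ⊔ (N ⊓ F (n + 1)) : Submodule ℚ M) := fun n hn =>
    Submodule.finrank_mono (hA n hn)
  have key : ∀ k ≤ m, finrank ℚ (F k ⊔ N : Submodule ℚ M) +
      ∑ n ∈ Finset.range k, (finrank ℚ (F n ⊔ (N ⊓ F (n + 1)) : Submodule ℚ M) -
        finrank ℚ (F n ⊔ D (n + 1) : Submodule ℚ M)) ≤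
      finrank ℚ N + ∑ n ∈ Finset.range k, b n := by
    intro k
    induction k with
    | zero =>
      intro _
      rw [h0, bot_sup_eq]
      simp
    | succ k ih =>
      intro hk
      have h1 := ih (by omega)
      have h2 := step (F k) (F (k + 1)) N (hF (Nat.le_succ k))
      have h3 := hb k (by omega)
      have h4 := hle k (by omega)
      rw [Finset.sum_range_succ, Finset.sum_range_succ]
      omega
  have hfin := key m le_rfl
  rw [hm, top_sup_eq, finrank_top] at hfin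
  have hzero : ∑ n ∈ Finset.range m, (finrank ℚ (F n ⊔ (N ⊓ F (n + 1)) : Submodule ℚ M) -
        finrank ℚ (F n ⊔ D (n + 1) : Submodule ℚ M)) = 0 := by omega
  intro n hn
  have h1 := (Finset.sum_eq_zero_iff.1 hzero) n (Finset.mem_range.2 hn)
  have h2 := hle n hn
  have h3 : F n ⊔ D (n + 1) = F n ⊔ (N ⊓ F (n + 1)) :=
    Submodule.eq_of_le_of_finrank_eq (hA n hn) (by omega)
  rw [h3]
  exact le_sup_right

end Pool.Agent.Helper66.AD2.STR
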